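import Pool.Agent.H15.IX.TE

/-!
# Row TEL: telescoping (helper36)
-/

set_option autoImplicit false

open Finset Pool.Agent.H15.IX
open MvPolynomial

namespace Pool.Agent.H36.IX

universe u

/-- closure properties of `Wc` -/
def CL (p : ℕ) : Prop :=
  (∀ q (g h : ℤ → ZMod p), Wc p q g → Wc p q h → Wc p q (fun a => g a + h a)) ∧
  (∀ q (c : ZMod p) (h : ℤ → ZMod p), Wc p q h → Wc p q (fun a => c * h a)) ∧
  (∀ q (c : ℤ) (h : ℤ → ZMod p), Wc p q h → Wc p q (fun a => h (a - c))) ∧
  (∀ q q' (h : ℤ → ZMod p), q ≤ q' → Wc p q h → Wc p q' h) ∧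
  (∀ (q m : ℕ) (h : ℤ → ZMod p), 1 ≤ m → Wc p q h →
    Wc p (q - wp p m) (fun a => h a - h (a - m)))

/-- functions on `ℤ ^ (r + 1)` -/
def Wq (p q : ℕ) {r : ℕ} (g : (Fin (r + 1) → ℤ) → ZMod p) : Prop :=
  ∀ A : Fin (r + 1) → ℤ, Wc p q (fun a => g (A + Pi.single 0 a))

section

variable {p r : ℕ} {κ : Type}

lemma Wq.add (hw : CL p) {q : ℕ} {g h : (Fin (r + 1) → ℤ) → ZMod p} (hg : Wq p q g)
    (hh : Wq p q h) : Wq p q (fun A => g A + h A) :=
  fun A => hw.1 q _ _ (hg A) (hh A)

lemma Wq.smul (hw : CL p) {q : ℕ} (c : ZMod p) {h : (Fin (r + 1) → ℤ) → ZMod p}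
    (hh : Wq p q h) : Wq p q (fun A => c * h A) :=
  fun A => hw.2.1 q c _ (hh A)

lemma Wq.sub (hw : CL p) {q : ℕ} {g h : (Fin (r + 1) → ℤ) → ZMod p} (hg : Wq p q g)
    (hh : Wq p q h) : Wq p q (fun A => g A - h A) := by
  have h1 := Wq.add hw hg (Wq.smul hw (-1) hh)
  intro A
  have h2 := h1 A
  have h3 : (fun a => g (A + Pi.single 0 a) - h (A + Pi.single 0 a)) =
      fun a => g (A + Pi.single 0 a) + -1 * h (A + Pi.single 0 a) := by
    funext a; ring
  rw [h3]
  exact h2

lemma Wq.shift {q : ℕ} (v : Fin (r + 1) → ℤ) {g : (Fin (r + 1) → ℤ) → ZMod p}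
    (hg : Wq p q g) : Wq p q (fun A => g (A - v)) := by
  intro A
  have h1 := hg (A - v)
  have h2 : (fun a => g (A + Pi.single 0 a - v)) = fun a => g (A - v + Pi.single 0 a) := by
    funext a
    congr 1
    abel
  rw [h2]
  exact h1

lemma Wq.mono (hw : CL p) {q q' : ℕ} (hq : q ≤ q') {g : (Fin (r + 1) → ℤ) → ZMod p}
    (hg : Wq p q g) : Wq p q' g := fun A => hw.2.2.2.1 q q' _ hq (hg A)

lemma Wq.diff (hw : CL p) {q m : ℕ} (hm : 1 ≤ m) {g : (Fin (r + 1) → ℤ) → ZMod p}
    (hg : Wq p q g) : Wq p (q - wp p m) (fun A => g A - g (A - Pi.single 0 (m : ℤ))) := by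
  intro A
  have h1 := hw.2.2.2.2 q m _ hm (hg A)
  have h2 : (fun a => g (A + Pi.single 0 a) - g (A + Pi.single 0 a - Pi.single 0 (m : ℤ))) =
      fun a => g (A + Pi.single 0 a) - g (A + Pi.single 0 (a - (m : ℤ))) := by
    funext a
    congr 2
    rw [Pi.single_sub]
    abel
  rw [h2]
  exact h1

/-- product of the operators `1 - τ ^ (v σ)` -/
def PK (K : Finset κ) (v : κ → Fin (r + 1) → ℤ) (g : (Fin (r + 1) → ℤ) → ZMod p)
    (A : Fin (r + 1) → ℤ) : ZMod p :=
  ∑ T ∈ K.powerset, (-1 : ZMod p) ^ T.card * g (A - ∑ σ ∈ T, v σ)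

lemma PK_empty (v : κ → Fin (r + 1) → ℤ) (g : (Fin (r + 1) → ℤ) → ZMod p)
    (A : Fin (r + 1) → ℤ) : PK ∅ v g A = g A := by
  simp [PK]

lemma PK_insert [DecidableEq κ] {K : Finset κ} {s : κ} (hs : s ∉ K) (v : κ → Fin (r + 1) → ℤ)
    (g : (Fin (r + 1) → ℤ) → ZMod p) (A : Fin (r + 1) → ℤ) :
    PK (insert s K) v g A = PK K v g A - PK K v g (A - v s) := by
  unfold PK
  rw [sum_powerset_insert hs, sub_eq_add_neg, ← sum_neg_distrib]
  congr 1
  refine sum_congr rfl fun T hT => ?_
  have hsT : s ∉ T := fun h => hs (mem_powerset.1 hT h)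
  rw [card_insert_of_notMem hsT, sum_insert hsT, pow_succ,
    show A - (v s + ∑ σ ∈ T, v σ) = A - v s - ∑ σ ∈ T, v σ by abel]
  ring

lemma PK_sub (K : Finset κ) (v : κ → Fin (r + 1) → ℤ) (g h : (Fin (r + 1) → ℤ) → ZMod p)
    (A : Fin (r + 1) → ℤ) : PK K v (fun A => g A - h A) A = PK K v g A - PK K v h A := by
  unfold PK
  rw [← sum_sub_distrib]
  exact sum_congr rfl fun T _ => by ring

lemma PK_shift (K : Finset κ) (v : κ → Fin (r + 1) → ℤ) (g : (Fin (r + 1) → ℤ) → ZMod p)
    (u A : Fin (r + 1) → ℤ) : PK K v (fun A => g (A - u)) A = PK K v g (A - u) := by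
  unfold PK
  refine sum_congr rfl fun T _ => ?_
  simp only
  rw [sub_right_comm]

lemma PK_mem [DecidableEq κ] (hw : CL p) (Z : Finset κ) (m : κ → ℕ) (v : κ → Fin (r + 1) → ℤ)
    (hZ : ∀ σ ∈ Z, v σ = Pi.single 0 (m σ : ℤ) ∧ 1 ≤ m σ) {q : ℕ}
    {g : (Fin (r + 1) → ℤ) → ZMod p} (hg : Wq p q g) (K : Finset κ) :
    Wq p (q - ∑ σ ∈ K.filter (fun σ => σ ∈ Z), wp p (m σ)) (PK K v g) := by
  induction K using Finset.induction_on with
  | empty =>
    rw [filter_empty, sum_empty, Nat.sub_zero, show PK ∅ v g = g from funext (PK_empty v g)]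
    exact hg
  | insert s K hs ih =>
    rw [show PK (insert s K) v g = fun A => PK K v g A - PK K v g (A - v s) from
      funext (PK_insert hs v g)]
    by_cases hsZ : s ∈ Z
    · rw [filter_insert, if_pos hsZ, sum_insert (fun h => hs (mem_filter.1 h).1),
        Nat.add_comm, ← Nat.sub_sub, (hZ s hsZ).1]
      exact ih.diff hw (hZ s hsZ).2
    · rw [filter_insert, if_neg hsZ]
      exact ih.sub hw (ih.shift (v s))

lemma PK_tele [DecidableEq κ] (hw : CL p) (Z : Finset κ) (m c : κ → ℕ) (v w : κ → Fin (r + 1) → ℤ)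
    (j : Fin (r + 1)) (hvw : ∀ σ, v σ = w σ + Pi.single j (c σ : ℤ))
    (hZ : ∀ σ ∈ Z, v σ = Pi.single 0 (m σ : ℤ) ∧ w σ = Pi.single 0 (m σ : ℤ) ∧ 1 ≤ m σ) {q : ℕ}
    {H : (Fin (r + 1) → ℤ) → ZMod p}
    (hH : ∀ c : ℤ, Wq p q (fun A => H (A + Pi.single j c) - H A)) (K : Finset κ) :
    Wq p (q - ∑ σ ∈ K.filter (fun σ => σ ∈ Z), wp p (m σ))
      (fun A => PK K v H A - PK K w H A) := by
  induction K using Finset.induction_on with
  | empty =>
    rw [filter_empty, sum_empty, Nat.sub_zero]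
    have h1 := hH 0
    intro A
    have h2 := h1 A
    have h3 : (fun a => PK ∅ v H (A + Pi.single 0 a) - PK ∅ w H (A + Pi.single 0 a)) =
        fun a => H (A + Pi.single 0 a + Pi.single j 0) - H (A + Pi.single 0 a) := by
      funext a
      rw [PK_empty, PK_empty, Pi.single_zero, add_zero]
    rw [h3]
    exact h2
  | insert s K hs ih =>
    by_cases hsZ : s ∈ Z
    · rw [filter_insert, if_pos hsZ, sum_insert (fun h => hs (mem_filter.1 h).1),
        Nat.add_comm, ← Nat.sub_sub]
      have h1 := ih.diff hw (hZ s hsZ).2.2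
      have h2 : (fun A => PK (insert s K) v H A - PK (insert s K) w H A) = fun A =>
          (PK K v H A - PK K w H A) - (PK K v H (A - Pi.single 0 (m s : ℤ)) -
            PK K w H (A - Pi.single 0 (m s : ℤ))) := by
        funext A
        rw [PK_insert hs, PK_insert hs, (hZ s hsZ).1, (hZ s hsZ).2.1]
        ring
      rw [h2]
      exact h1
    · rw [filter_insert, if_neg hsZ]
      have h1 : Wq p q (fun A => H (A - v s) - H (A - w s)) := by
        have h3 := (hH (-(c s : ℤ))).shift (w s)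
        intro A
        have h4 := h3 A
        have h5 : (fun a => H (A + Pi.single 0 a - v s) - H (A + Pi.single 0 a - w s)) =
            fun a => H (A + Pi.single 0 a - w s + Pi.single j (-(c s : ℤ))) -
              H (A + Pi.single 0 a - w s) := by
          funext a
          congr 2
          rw [hvw s, Pi.single_neg]
          abel
        rw [h5]
        exact h4
      have h2 := PK_mem hw Z m w (fun σ hσ => (hZ σ hσ).2) h1 K
      have h6 : (fun A => PK (insert s K) v H A - PK (insert s K) w H A) = fun A =>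
          ((PK K v H A - PK K w H A) - (PK K v H (A - v s) - PK K w H (A - v s))) -
            PK K w (fun A => H (A - v s) - H (A - w s)) A := by
        funext A
        rw [PK_insert hs, PK_insert hs, PK_sub, PK_shift, PK_shift]
        ring
      rw [h6]
      exact (ih.sub hw (ih.shift (v s))).sub hw h2

end

/-- the vectors in between -/
def Mj {r : ℕ} {κ : Type} (M : κ → Fin (r + 1) → ℕ) (j : ℕ) (σ : κ) (i : Fin (r + 1)) : ℤ :=
  if i = 0 then (M σ 0 : ℤ) else if (i : ℕ) ≤ j then 0 else (M σ i : ℤ)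

/-- cutting the coordinates `1, .., j` -/
def cutA {r : ℕ} (j : ℕ) (A : Fin (r + 1) → ℤ) (i : Fin (r + 1)) : ℤ :=
  if i = 0 then A 0 else if (i : ℕ) ≤ j then 0 else A i

lemma Mj_zero {r : ℕ} {κ : Type} (M : κ → Fin (r + 1) → ℕ) (σ : κ) :
    Mj M 0 σ = fun i => (M σ i : ℤ) := by
  funext i
  unfold Mj
  by_cases hi : i = 0
  · rw [if_pos hi, hi]
  · rw [if_neg hi, if_neg (fun h => hi (Fin.ext (by simpa using h)))]

lemma Mj_last {r : ℕ} {κ : Type} (M : κ → Fin (r + 1) → ℕ) (σ : κ) :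
    Mj M r σ = Pi.single 0 (M σ 0 : ℤ) := by
  funext i
  unfold Mj
  by_cases hi : i = 0
  · rw [if_pos hi, hi, Pi.single_eq_same]
  · rw [if_neg hi, if_pos (by omega), Pi.single_eq_of_ne hi]

lemma Mj_succ {r : ℕ} {κ : Type} (M : κ → Fin (r + 1) → ℕ) (σ : κ) (j : ℕ)
    (hj : j + 1 < r + 1) : Mj M j σ = Mj M (j + 1) σ +
      Pi.single ⟨j + 1, hj⟩ (M σ ⟨j + 1, hj⟩ : ℤ) := by
  funext i
  rw [Pi.add_apply]
  unfold Mj
  by_cases hi : i = 0
  · rw [if_pos hi, if_pos hi, Pi.single_eq_of_ne, add_zero]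
    rw [hi]
    intro h
    have := congrArg Fin.val h
    simp at this
  · rw [if_neg hi, if_neg hi]
    by_cases h2 : i = ⟨j + 1, hj⟩
    · subst h2
      rw [Pi.single_eq_same, if_neg (by simp), if_pos (by simp), zero_add]
    · rw [Pi.single_eq_of_ne h2, add_zero]
      have h3 : (i : ℕ) ≠ j + 1 := fun h => h2 (Fin.ext h)
      by_cases h4 : (i : ℕ) ≤ j
      · rw [if_pos h4, if_pos (by omega)]
      · rw [if_neg h4, if_neg (by omega)]

lemma cutA_zero {r : ℕ} (A : Fin (r + 1) → ℤ) : cutA 0 A = A := by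
  funext i
  unfold cutA
  by_cases hi : i = 0
  · rw [if_pos hi, hi]
  · rw [if_neg hi, if_neg (fun h => hi (Fin.ext (by simpa using h)))]

lemma cutA_last {r : ℕ} (A : Fin (r + 1) → ℤ) : cutA r A = Pi.single 0 (A 0) := by
  funext i
  unfold cutA
  by_cases hi : i = 0
  · rw [if_pos hi, hi, Pi.single_eq_same]
  · rw [if_neg hi, if_pos (by omega), Pi.single_eq_of_ne hi]

lemma cutA_succ {r : ℕ} (A : Fin (r + 1) → ℤ) (j : ℕ) (hj : j + 1 < r + 1) :
    cutA j A = cutA (j + 1) A + Pi.single ⟨j + 1, hj⟩ (A ⟨j + 1, hj⟩) := by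
  funext i
  rw [Pi.add_apply]
  unfold cutA
  by_cases hi : i = 0
  · rw [if_pos hi, if_pos hi, Pi.single_eq_of_ne, add_zero]
    rw [hi]
    intro h
    have := congrArg Fin.val h
    simp at this
  · rw [if_neg hi, if_neg hi]
    by_cases h2 : i = ⟨j + 1, hj⟩
    · subst h2
      rw [Pi.single_eq_same, if_neg (by simp), if_pos (by simp), zero_add]
    · rw [Pi.single_eq_of_ne h2, add_zero]
      have h3 : (i : ℕ) ≠ j + 1 := fun h => h2 (Fin.ext h)
      by_cases h4 : (i : ℕ) ≤ j
      · rw [if_pos h4, if_pos (by omega)]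
      · rw [if_neg h4, if_neg (by omega)]

lemma cutA_add {r : ℕ} (A : Fin (r + 1) → ℤ) (j : ℕ) (a : ℤ) :
    cutA j (A + Pi.single 0 a) = cutA j A + Pi.single 0 a := by
  funext i
  rw [Pi.add_apply]
  unfold cutA
  by_cases hi : i = 0
  · rw [if_pos hi, if_pos hi, hi, Pi.add_apply, Pi.single_eq_same]
  · rw [if_neg hi, if_neg hi, Pi.single_eq_of_ne hi, add_zero]
    by_cases h4 : (i : ℕ) ≤ j
    · rw [if_pos h4, if_pos h4]
    · rw [if_neg h4, if_neg h4, Pi.add_apply, Pi.single_eq_of_ne hi, add_zero]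

lemma Lz {p r : ℕ} (hw : CL p) (q : ℕ) (j : Fin (r + 1)) (H : (Fin (r + 1) → ℤ) → ZMod p)
    (hB : ∀ A : Fin (r + 1) → ℤ,
      Wc p q (fun a => H (A + Pi.single 0 a) - H (A + Pi.single j 1 + Pi.single 0 a))) :
    ∀ c : ℤ, Wq p q (fun A => H (A + Pi.single j c) - H A) := by
  have h0 : Wq p q (fun A => H A - H (A + Pi.single j 1)) := by
    intro A
    have h1 := hB A
    have h2 : (fun a => H (A + Pi.single 0 a) - H (A + Pi.single 0 a + Pi.single j 1)) =
        fun a => H (A + Pi.single 0 a) - H (A + Pi.single j 1 + Pi.single 0 a) := by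
      funext a
      congr 2
      abel
    rw [h2]
    exact h1
  intro c
  induction c using Int.induction_on with
  | zero =>
    have h1 := Wq.smul hw 0 h0
    have h2 : (fun A : Fin (r + 1) → ℤ => H (A + Pi.single j 0) - H A) =
        fun A => 0 * (H A - H (A + Pi.single j 1)) := by
      funext A
      rw [Pi.single_zero, add_zero]
      ring
    rw [h2]
    exact h1
  | succ c ih =>
    have h1 := ih.sub hw (h0.shift (-(Pi.single j (c : ℤ))))
    have h2 : (fun A : Fin (r + 1) → ℤ => H (A + Pi.single j ((c : ℤ) + 1)) - H A) =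
        fun A => (H (A + Pi.single j (c : ℤ)) - H A) -
          (H (A - -(Pi.single j (c : ℤ))) -
            H (A - -(Pi.single j (c : ℤ)) + Pi.single j 1)) := by
      funext A
      have e1 : A + Pi.single j ((c : ℤ) + 1) = A - -(Pi.single j (c : ℤ)) + Pi.single j 1 := by
        rw [Pi.single_add]
        abel
      have e2 : A + Pi.single j (c : ℤ) = A - -(Pi.single j (c : ℤ)) := by abel
      rw [e1, e2]
      ring
    rw [h2]
    exact h1
  | pred c ih =>
    have h1 := ih.add hw (h0.shift (Pi.single j ((c : ℤ) + 1)))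
    have h2 : (fun A : Fin (r + 1) → ℤ => H (A + Pi.single j (-(c : ℤ) - 1)) - H A) =
        fun A => (H (A + Pi.single j (-(c : ℤ))) - H A) +
          (H (A - Pi.single j ((c : ℤ) + 1)) -
            H (A - Pi.single j ((c : ℤ) + 1) + Pi.single j 1)) := by
      funext A
      have e1 : A + Pi.single j (-(c : ℤ) - 1) = A - Pi.single j ((c : ℤ) + 1) := by
        rw [show -(c : ℤ) - 1 = -((c : ℤ) + 1) by ring, Pi.single_neg]
        abel
      have e2 : A + Pi.single j (-(c : ℤ)) = A - Pi.single j ((c : ℤ) + 1) + Pi.single j 1 := by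
        rw [Pi.single_neg, Pi.single_add]
        abel
      rw [e1, e2]
      ring
    rw [h2]
    exact h1

theorem pf_TEL (hWCL : T_WCL) : T_TEL := by
  classical
  intro p r Q κ _ _ M H qj hp hM0 hmon hB hQ A
  obtain ⟨w1, w2, w3, w4, w5, w6, w7⟩ := hWCL p hp
  have hw : CL p := ⟨w1, w2, w3, w4, w5⟩
  have hne : ∀ (j : ℕ) (hj : j + 1 < r + 1), (⟨j + 1, hj⟩ : Fin (r + 1)) ≠ 0 := by
    intro j hj h
    have := congrArg Fin.val h
    simp at this
  have hzero : Wq p Q (fun _ : Fin (r + 1) → ℤ => (0 : ZMod p)) := by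
    intro A
    have : Fact p.Prime := ⟨hp⟩
    refine ⟨1, by simp, 0, fun a _ => ?_⟩
    simp [act]
  -- first telescoping
  have h1 : ∀ j : ℕ, j ≤ r → Wq p Q (fun A => PK univ (Mj M 0) H A - PK univ (Mj M j) H A) := by
    intro j
    induction j with
    | zero =>
      intro _
      simp only [sub_self]
      exact hzero
    | succ j ih =>
      intro hj
      have hj' : j + 1 < r + 1 := by omega
      have h2 := PK_tele hw (univ.filter fun σ => M σ ⟨j + 1, hj'⟩ = 0) (fun σ => M σ 0)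
        (fun σ => M σ ⟨j + 1, hj'⟩) (Mj M j) (Mj M (j + 1)) ⟨j + 1, hj'⟩
        (fun σ => Mj_succ M σ j hj') (by
          intro σ hσ
          rw [mem_filter] at hσ
          have hs := Mj_succ M σ j hj'
          rw [hσ.2, Nat.cast_zero, Pi.single_zero, add_zero] at hs
          have hs2 : Mj M (j + 1) σ = Pi.single 0 (M σ 0 : ℤ) := by
            funext i
            unfold Mj
            by_cases hi : i = 0
            · rw [if_pos hi, hi, Pi.single_eq_same]
            · rw [if_neg hi, Pi.single_eq_of_ne hi]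
              by_cases h4 : (i : ℕ) ≤ j + 1
              · rw [if_pos h4]
              · rw [if_neg h4, hmon σ ⟨j + 1, hj'⟩ i (hne j hj')
                  (Fin.le_def.2 (by simp only; omega)) hσ.2, Nat.cast_zero]
          exact ⟨hs.trans hs2, hs2, hM0 σ⟩)
        (Lz hw _ _ H (hB _ (hne j hj'))) univ
      have h3 := h2.mono hw (q' := Q) (by
        have := hQ _ (hne j hj')
        simp only [mem_filter, mem_univ, true_and]
        exact this)
      have h4 := (ih (by omega)).add hw h3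
      have h5 : (fun A => PK univ (Mj M 0) H A - PK univ (Mj M (j + 1)) H A) = fun A =>
          (PK univ (Mj M 0) H A - PK univ (Mj M j) H A) +
            (PK univ (Mj M j) H A - PK univ (Mj M (j + 1)) H A) := by
        funext A
        ring
      rw [h5]
      exact h4
  -- second telescoping
  have h2 : ∀ j : ℕ, j ≤ r → Wq p Q (fun A => PK univ (Mj M r) H A -
      PK univ (Mj M r) (fun A => H (cutA j A)) A) := by
    intro j
    induction j with
    | zero =>
      intro _
      simp only [cutA_zero, sub_self]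
      exact hzero
    | succ j ih =>
      intro hj
      have hj' : j + 1 < r + 1 := by omega
      have hL := Lz hw _ _ H (hB _ (hne j hj'))
      have h3 : Wq p (qj ⟨j + 1, hj'⟩) (fun A => H (cutA j A) - H (cutA (j + 1) A)) := by
        intro A
        have h4 := hL (A ⟨j + 1, hj'⟩) (cutA (j + 1) A)
        have h5 : (fun a => H (cutA j (A + Pi.single 0 a)) -
            H (cutA (j + 1) (A + Pi.single 0 a))) = fun a =>
            H (cutA (j + 1) A + Pi.single 0 a + Pi.single ⟨j + 1, hj'⟩ (A ⟨j + 1, hj'⟩)) -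
              H (cutA (j + 1) A + Pi.single 0 a) := by
          funext a
          rw [cutA_add, cutA_add, cutA_succ A j hj', add_right_comm]
        rw [h5]
        exact h4
      have h6 := PK_mem hw univ (fun σ => M σ 0) (Mj M r)
        (fun σ _ => ⟨Mj_last M σ, hM0 σ⟩) h3 univ
      have h7 := h6.mono hw (q' := Q) (by
        refine le_trans ?_ (hQ _ (hne j hj'))
        refine Nat.sub_le_sub_left (sum_le_sum_of_subset ?_) _
        intro σ _
        simp)
      have h8 := (ih (by omega)).add hw h7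
      have h9 : (fun A => PK univ (Mj M r) H A -
          PK univ (Mj M r) (fun A => H (cutA (j + 1) A)) A) = fun A =>
          (PK univ (Mj M r) H A - PK univ (Mj M r) (fun A => H (cutA j A)) A) +
            PK univ (Mj M r) (fun A => H (cutA j A) - H (cutA (j + 1) A)) A := by
        funext A
        rw [PK_sub]
        ring
      rw [h9]
      exact h8
  have h3 := ((h1 r le_rfl).add hw (h2 r le_rfl)) A
  have h4 : (fun a => ∑ T : Finset κ, (-1 : ZMod p) ^ T.card *
      (H (A + Pi.single 0 a - ∑ σ ∈ T, fun j => (M σ j : ℤ)) -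
        H (Pi.single 0 (A 0 + a - ∑ σ ∈ T, (M σ 0 : ℤ))))) = fun a =>
      (PK univ (Mj M 0) H (A + Pi.single 0 a) - PK univ (Mj M r) H (A + Pi.single 0 a)) +
        (PK univ (Mj M r) H (A + Pi.single 0 a) -
          PK univ (Mj M r) (fun A => H (cutA r A)) (A + Pi.single 0 a)) := by
    funext a
    rw [sub_add_sub_cancel]
    unfold PK
    rw [powerset_univ, ← sum_sub_distrib]
    refine sum_congr rfl fun T _ => ?_
    rw [← mul_sub]
    have e1 : ∑ σ ∈ T, (fun j => (M σ j : ℤ)) = ∑ σ ∈ T, Mj M 0 σ :=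
      sum_congr rfl fun σ _ => (Mj_zero M σ).symm
    have e2 : ((A + Pi.single 0 a - ∑ σ ∈ T, Mj M r σ : Fin (r + 1) → ℤ)) 0 =
        A 0 + a - ∑ σ ∈ T, (M σ 0 : ℤ) := by
      rw [Pi.sub_apply, Pi.add_apply, Pi.single_eq_same, Finset.sum_apply]
      congr 1
    simp only
    rw [e1, cutA_last, e2]
  rw [h4]
  exact h3

end Pool.Agent.H36.IX
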