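import Pool.Agent.H36.IX.VTRa

/-!
# Row VTR: the value-transcendental part (helper36)
-/

set_option autoImplicit false

open Finset Pool.Agent.H15.IX

namespace Pool.Agent.H36.IX

universe u

lemma vmax {Ω : Type u} [Field Ω] (O : ValuationSubring Ω) {ι : Type*} (J : Finset ι)
    (f : ι → Ω) (j₀ : ι) (hj₀ : j₀ ∈ J) (h0 : O.valuation (f j₀) ≠ 0)
    (h : ∀ j ∈ J, j ≠ j₀ → O.valuation (f j) < O.valuation (f j₀)) :
    O.valuation (∑ j ∈ J, f j) = O.valuation (f j₀) := by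
  classical
  rw [← add_sum_erase J f hj₀]
  refine Valuation.map_add_eq_of_lt_left _ ?_
  exact Valuation.map_sum_lt _ h0 fun j hj => h j (mem_of_mem_erase hj) (ne_of_mem_erase hj)

lemma eta_prod {G : Type*} [CommGroup G] (Δ : Subgroup G) (η : G → G)
    (hη : ∀ a ∈ Δ, ∀ b ∈ Δ, η (a * b) = η a * η b) {ι : Type*} (I : Finset ι) (s : ι → G)
    (b : ι → ℕ) (hs : ∀ i ∈ I, s i ∈ Δ) : η (∏ i ∈ I, s i ^ b i) = ∏ i ∈ I, η (s i) ^ b i := by
  classical
  have h1 : η 1 = 1 := by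
    have := hη 1 Δ.one_mem 1 Δ.one_mem
    rw [mul_one] at this
    exact (mul_eq_left.1 this.symm)
  have hpow : ∀ a ∈ Δ, ∀ m : ℕ, η (a ^ m) = η a ^ m := by
    intro a ha m
    induction m with
    | zero => rw [pow_zero, pow_zero, h1]
    | succ m ih => rw [pow_succ, pow_succ, hη _ (Δ.pow_mem ha m) _ ha, ih]
  induction I using Finset.induction_on with
  | empty => rw [prod_empty, prod_empty, h1]
  | insert a I ha ih =>
    have hsI : ∀ i ∈ I, s i ∈ Δ := fun i hi => hs i (mem_insert_of_mem hi)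
    rw [prod_insert ha, prod_insert ha, hη _ (Δ.pow_mem (hs a (mem_insert_self a I)) _) _
      (Δ.prod_mem fun i hi => Δ.pow_mem (hsI i hi) _), ih hsI,
      hpow _ (hs a (mem_insert_self a I))]

theorem pf_VTR (hGRP : T_GRP.{u}) (hGEN : T_GEN.{u}) : T_VTR.{u} := by
  classical
  intro k Ω _ _ _ _ _ _ O N M p t S hp htN ht0 htv hNM hSM hS1 hsg0 hval hroot hpur
  refine hGEN Ω O N _ ?_
  intro r y hy F hF
  choose s hs hys using hy
  choose! sg hsg using hsg0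
  have Sinj : ∀ a ∈ S, ∀ b ∈ S, O.valuation (a : Ω) = O.valuation (b : Ω) → a = b := by
    intro a ha b hb hab
    have h1 : O.valuation ((a * b⁻¹ : Ωˣ) : Ω) = 1 := by
      have h5 : O.valuation (b : Ω) ≠ 0 := (Valuation.ne_zero_iff _).2 b.ne_zero
      rw [Units.val_mul, Units.val_inv_eq_inv_val, map_mul, map_inv₀, hab, mul_inv_cancel₀ h5]
    exact mul_inv_eq_one.1 (hS1 _ (S.mul_mem ha (S.inv_mem hb)) h1)
  set Δ₀ : Subgroup Ωˣ := Subgroup.closure (Set.range s) with hΔ₀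
  set mon : (Fin r →₀ ℕ) → Ωˣ := fun b => ∏ i, s i ^ b i with hmon
  have hmonΔ : ∀ b, mon b ∈ Δ₀ := fun b =>
    Δ₀.prod_mem fun i _ => Δ₀.pow_mem (Subgroup.subset_closure ⟨i, rfl⟩) _
  have hred : ∀ P : MvPolynomial (Fin r) Ω, ∃ (J : Finset Ωˣ) (B : Ωˣ → Ω), P ∈ F →
      ((∀ j ∈ J, j ∈ Δ₀ ∧ B j ∈ N ∧ B j ≠ 0) ∧
      (∀ j ∈ J, ∀ j' ∈ J, ((j / j' : Ωˣ) : Ω) ∈ N → j = j') ∧
      ∀ η : Ωˣ → Ω, (∀ a ∈ Δ₀, ∀ b ∈ Δ₀, ((a / b : Ωˣ) : Ω) ∈ N →
        η a = ((a / b : Ωˣ) : Ω) * η b) →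
        ∑ i ∈ P.support, P.coeff i * η (mon i) = ∑ j ∈ J, B j * η j) := by
    intro P
    by_cases hP : P ∈ F
    · obtain ⟨J, B, h⟩ := red N Δ₀ P.support (fun b => P.coeff b) mon
        (fun b _ => hF P hP b) (fun b _ => hmonΔ b)
      exact ⟨J, B, fun _ => h⟩
    · exact ⟨∅, fun _ => 0, fun h => absurd h hP⟩
  choose J B hJB using hred
  set T : Finset Ωˣ := (univ.image s ∪ F.biUnion fun P => (J P).image fun j => sg (B P j)) ∪
    {sg t} with hT
  set H : Finset Ωˣ := F.biUnion fun P => (J P).image fun j => sg (B P j) * j with hH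
  have hTS : ∀ x ∈ T, x ∈ S := by
    intro x hx
    rw [hT, mem_union, mem_union, mem_image, mem_biUnion, mem_singleton] at hx
    rcases hx with (⟨i, _, rfl⟩ | ⟨P, hP, hx⟩) | rfl
    · exact hs i
    · rw [mem_image] at hx
      obtain ⟨j, hj, rfl⟩ := hx
      obtain ⟨_, h2, h3⟩ := (hJB P hP).1 j hj
      exact (hsg _ h2 h3).1
    · exact (hsg t htN ht0).1
  set Δ : Subgroup Ωˣ := Subgroup.closure (T : Set Ωˣ) with hΔ
  have hΔS : ∀ x ∈ Δ, x ∈ S := by
    have : Δ ≤ S := (Subgroup.closure_le S).2 fun x hx => hTS x hx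
    exact this
  have h0Δ : ∀ x ∈ Δ₀, x ∈ Δ := by
    have : Δ₀ ≤ Δ := by
      refine Subgroup.closure_mono ?_
      rintro x ⟨i, rfl⟩
      rw [hT, coe_union, coe_union, coe_image]
      exact Or.inl (Or.inl ⟨i, by simp, rfl⟩)
    exact this
  have hsΔ : ∀ i, s i ∈ Δ := fun i => h0Δ _ (Subgroup.subset_closure ⟨i, rfl⟩)
  have hBΔ : ∀ P ∈ F, ∀ j ∈ J P, sg (B P j) ∈ Δ := by
    intro P hP j hj
    refine Subgroup.subset_closure ?_
    rw [mem_coe, hT, mem_union, mem_union, mem_biUnion]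
    exact Or.inl (Or.inr ⟨P, hP, mem_image_of_mem _ hj⟩)
  have hHΔ : ∀ h ∈ H, h ∈ Δ := by
    intro h hh
    rw [hH, mem_biUnion] at hh
    obtain ⟨P, hP, hx⟩ := hh
    rw [mem_image] at hx
    obtain ⟨j, hj, rfl⟩ := hx
    exact Δ.mul_mem (hBΔ P hP j hj) (h0Δ _ ((hJB P hP).1 j hj).1)
  have htv' : O.valuation ((sg t : Ωˣ) : Ω) = O.valuation t := (hsg t htN ht0).2.2
  obtain ⟨M', κ, hpM, hmul, hord, hvl⟩ := kap hGRP O T H (sg t) p hp
    (by rw [hT]; exact mem_union_right _ (mem_singleton_self _)) (by rw [htv']; exact htv) hHΔ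
    (by
      intro x hx m n hm hmn
      rw [htv'] at hmn ⊢
      obtain ⟨b', hb', hxb⟩ := hpur (x : Ω) (t ^ n) m (hSM x (hΔS x hx)) (N.zpow_mem htN n)
        (zpow_ne_zero n ht0) hm (by rw [hmn, map_zpow₀])
      have hb0 : b' ≠ 0 := by
        rintro rfl
        rw [map_zero] at hxb
        exact x.ne_zero ((Valuation.zero_iff _).1 hxb)
      obtain ⟨m', n', _, h2, h3⟩ := hval b' hb' hb0
      exact ⟨m', n', h2, by rw [hxb]; exact h3⟩)
  have hM0 : M' ≠ 0 := by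
    intro h
    exact hpM (h ▸ dvd_zero p)
  obtain ⟨x0, hx0, hx0v⟩ := hroot M' hpM
  have hvt0 : O.valuation t ≠ 0 := (Valuation.ne_zero_iff _).2 ht0
  have hx00 : x0 ≠ 0 := by
    rintro rfl
    rw [map_zero, zero_pow hM0] at hx0v
    exact hvt0 hx0v.symm
  obtain ⟨hθS, hθN, hθv⟩ := hsg x0 hx0 hx00
  set θ : Ωˣ := sg x0 with hθ
  have hθ0 : O.valuation (θ : Ω) ≠ 0 := (Valuation.ne_zero_iff _).2 θ.ne_zero
  have hθ1 : O.valuation (θ : Ω) < 1 := by
    by_contra hcon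
    push Not at hcon
    have : 1 ≤ O.valuation (θ : Ω) ^ M' := one_le_pow₀ hcon
    rw [hθv, hx0v] at this
    exact absurd this (not_le.2 htv)
  have hθt : O.valuation (θ : Ω) ^ M' = O.valuation t := by rw [hθv, hx0v]
  set η : Ωˣ → Ωˣ := fun a => θ ^ κ a with hη
  have ηmul : ∀ a ∈ Δ, ∀ b ∈ Δ, η (a * b) = η a * η b := by
    intro a ha b hb
    simp only [hη]
    rw [hmul a ha b hb, zpow_add]
  have ηN : ∀ a, ((η a : Ωˣ) : Ω) ∈ N := by
    intro a
    simp only [hη]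
    rw [Units.val_zpow_eq_zpow_val]
    exact N.zpow_mem hθN _
  have ηS : ∀ a, η a ∈ S := fun a => S.zpow_mem hθS _
  have ηv : ∀ a, O.valuation ((η a : Ωˣ) : Ω) = O.valuation (θ : Ω) ^ κ a := by
    intro a
    simp only [hη]
    rw [Units.val_zpow_eq_zpow_val, map_zpow₀]
  have ηid : ∀ a ∈ Δ, (a : Ω) ∈ N → η a = a := by
    intro a ha haN
    refine Sinj _ (ηS a) _ (hΔS a ha) ?_
    obtain ⟨m, n, hm, _, hmn⟩ := hval (a : Ω) haN a.ne_zero
    have h1 := hvl a ha m n hm (by rw [htv']; exact hmn)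
    have h2 : O.valuation ((η a : Ωˣ) : Ω) ^ m = O.valuation (a : Ω) ^ m := by
      rw [hmn, ηv, ← zpow_natCast, ← zpow_mul, mul_comm (κ a) (m : ℤ), h1, zpow_mul,
        zpow_natCast, hθt]
    exact (pow_left_inj₀ (zero_le) (zero_le) (by omega)).1 h2
  have ηord : ∀ a ∈ H, ∀ b ∈ H, O.valuation (a : Ω) < O.valuation (b : Ω) →
      O.valuation ((η a : Ωˣ) : Ω) < O.valuation ((η b : Ωˣ) : Ω) := by
    intro a ha b hb hab
    rw [ηv, ηv]
    exact zpow_right_strictAnti₀ (zero_lt_iff.2 hθ0) hθ1 (hord a ha b hb hab)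
  have hevy : ∀ P ∈ F, MvPolynomial.eval y P = ∑ j ∈ J P, B P j * (j : Ω) := by
    intro P hP
    rw [MvPolynomial.eval_eq', ← (hJB P hP).2.2 (fun a => (a : Ω)) (by
      intro a _ b _ _
      rw [← Units.val_mul, div_mul_cancel])]
    refine sum_congr rfl fun b _ => ?_
    congr 1
    simp only [hmon, Units.coe_prod, Units.val_pow_eq_pow_val, hys]
  have hevz : ∀ P ∈ F, MvPolynomial.eval (fun i => ((η (s i) : Ωˣ) : Ω)) P =
      ∑ j ∈ J P, B P j * ((η j : Ωˣ) : Ω) := by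
    intro P hP
    rw [MvPolynomial.eval_eq', ← (hJB P hP).2.2 (fun a => ((η a : Ωˣ) : Ω)) (by
      intro a ha b hb hab
      have hd : a / b ∈ Δ := Δ.div_mem (h0Δ a ha) (h0Δ b hb)
      have h1 := ηmul (a / b) hd b (h0Δ b hb)
      rw [div_mul_cancel, ηid _ hd hab] at h1
      simp only [h1, Units.val_mul])]
    refine sum_congr rfl fun b _ => ?_
    congr 1
    simp only [hmon]
    rw [eta_prod Δ η ηmul univ s b (fun i _ => hsΔ i), Units.coe_prod]
    simp only [Units.val_pow_eq_pow_val]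
  have key : ∀ P ∈ F, (MvPolynomial.eval y P = 0 ∧
      MvPolynomial.eval (fun i => ((η (s i) : Ωˣ) : Ω)) P = 0) ∨
      ∃ h ∈ H, O.valuation (MvPolynomial.eval y P) = O.valuation (h : Ω) ∧
        O.valuation (MvPolynomial.eval (fun i => ((η (s i) : Ωˣ) : Ω)) P) =
          O.valuation ((η h : Ωˣ) : Ω) := by
    intro P hP
    obtain ⟨hj1, hj2, _⟩ := hJB P hP
    rw [hevy P hP, hevz P hP]
    rcases (J P).eq_empty_or_nonempty with hE | hne
    · left
      rw [hE]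
      simp
    · right
      obtain ⟨j₀, hj₀, hmax⟩ := exists_max_image (J P)
        (fun j => O.valuation ((sg (B P j) * j : Ωˣ) : Ω)) hne
      have hHm : ∀ j ∈ J P, sg (B P j) * j ∈ H := by
        intro j hj
        rw [hH, mem_biUnion]
        exact ⟨P, hP, mem_image_of_mem _ hj⟩
      have hlt : ∀ j ∈ J P, j ≠ j₀ → O.valuation ((sg (B P j) * j : Ωˣ) : Ω) <
          O.valuation ((sg (B P j₀) * j₀ : Ωˣ) : Ω) := by
        intro j hj hjj
        refine lt_of_le_of_ne (hmax j hj) fun heq => hjj ?_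
        have h1 := Sinj _ (hΔS _ (hHΔ _ (hHm j hj))) _ (hΔS _ (hHΔ _ (hHm j₀ hj₀))) heq
        refine hj2 j hj j₀ hj₀ ?_
        have h2 : j / j₀ = sg (B P j₀) / sg (B P j) := by
          rw [div_eq_div_iff_mul_eq_mul, mul_comm j, h1]
        rw [h2, div_eq_mul_inv, Units.val_mul, Units.val_inv_eq_inv_val]
        exact N.mul_mem (hsg _ (hj1 j₀ hj₀).2.1 (hj1 j₀ hj₀).2.2).2.1
          (N.inv_mem (hsg _ (hj1 j hj).2.1 (hj1 j hj).2.2).2.1)
      have hv1 : ∀ j ∈ J P, O.valuation (B P j * (j : Ω)) =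
          O.valuation ((sg (B P j) * j : Ωˣ) : Ω) := by
        intro j hj
        rw [Units.val_mul, map_mul, map_mul,
          (hsg _ (hj1 j hj).2.1 (hj1 j hj).2.2).2.2]
      have hv2 : ∀ j ∈ J P, O.valuation (B P j * ((η j : Ωˣ) : Ω)) =
          O.valuation ((η (sg (B P j) * j) : Ωˣ) : Ω) := by
        intro j hj
        have h3 := hsg _ (hj1 j hj).2.1 (hj1 j hj).2.2
        rw [ηmul _ (hBΔ P hP j hj) _ (h0Δ _ (hj1 j hj).1), ηid _ (hBΔ P hP j hj) h3.2.1,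
          Units.val_mul, map_mul, map_mul, h3.2.2]
      refine ⟨sg (B P j₀) * j₀, hHm j₀ hj₀, ?_, ?_⟩
      · rw [vmax O (J P) (fun j => B P j * (j : Ω)) j₀ hj₀, hv1 j₀ hj₀]
        · rw [hv1 j₀ hj₀]
          exact (Valuation.ne_zero_iff _).2 (Units.ne_zero _)
        · intro j hj hjj
          rw [hv1 j hj, hv1 j₀ hj₀]
          exact hlt j hj hjj
      · rw [vmax O (J P) (fun j => B P j * ((η j : Ωˣ) : Ω)) j₀ hj₀, hv2 j₀ hj₀]
        · rw [hv2 j₀ hj₀]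
          exact (Valuation.ne_zero_iff _).2 (Units.ne_zero _)
        · intro j hj hjj
          rw [hv2 j hj, hv2 j₀ hj₀]
          exact ηord _ (hHm j hj) _ (hHm j₀ hj₀) (hlt j hj hjj)
  refine ⟨fun i => ((η (s i) : Ωˣ) : Ω), fun i => ηN _, fun P hP Q hQ => ?_⟩
  rcases key P hP with ⟨h1, h2⟩ | ⟨h, hh, h1, h2⟩
  · rw [h1, h2]
    simp
  · rcases key Q hQ with ⟨h3, h4⟩ | ⟨h', hh', h3, h4⟩
    · rw [h3, h4, h1, h2, map_zero]
      have e1 : O.valuation (h : Ω) ≠ 0 := (Valuation.ne_zero_iff _).2 (Units.ne_zero _)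
      have e2 : O.valuation ((η h : Ωˣ) : Ω) ≠ 0 :=
        (Valuation.ne_zero_iff _).2 (Units.ne_zero _)
      rw [le_zero_iff, le_zero_iff]
      exact ⟨fun h => absurd h e1, fun h => absurd h e2⟩
    · rw [h1, h2, h3, h4]
      rcases lt_trichotomy (O.valuation (h : Ω)) (O.valuation (h' : Ω)) with hc | hc | hc
      · exact ⟨fun _ => (ηord h hh h' hh' hc).le, fun _ => hc.le⟩
      · have := Sinj h (hΔS _ (hHΔ h hh)) h' (hΔS _ (hHΔ h' hh')) hc
        rw [this]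
        exact ⟨fun _ => le_rfl, fun _ => le_rfl⟩
      · exact ⟨fun h5 => absurd h5 (not_le.2 hc),
          fun h5 => absurd h5 (not_le.2 (ηord h' hh' h hh hc))⟩

end Pool.Agent.H36.IX
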