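import Pool.Agent.H15.IX.TC

/-!
# Row VTR, first part: grouping of monomials and the homomorphism to the integers (helper36)
-/

set_option autoImplicit false

open Finset Pool.Agent.H15.IX

namespace Pool.Agent.H36.IX

universe u

/-- grouping of monomials -/
lemma red {Ω : Type u} [Field Ω] (N : Subfield Ω) (Δ : Subgroup Ωˣ) {ι : Type*} (I : Finset ι)
    (c : ι → Ω) (g : ι → Ωˣ) (hc : ∀ i ∈ I, c i ∈ N) (hg : ∀ i ∈ I, g i ∈ Δ) :
    ∃ (J : Finset Ωˣ) (B : Ωˣ → Ω), (∀ j ∈ J, j ∈ Δ ∧ B j ∈ N ∧ B j ≠ 0) ∧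
      (∀ j ∈ J, ∀ j' ∈ J, ((j / j' : Ωˣ) : Ω) ∈ N → j = j') ∧
      ∀ η : Ωˣ → Ω, (∀ a ∈ Δ, ∀ b ∈ Δ, ((a / b : Ωˣ) : Ω) ∈ N →
        η a = ((a / b : Ωˣ) : Ω) * η b) →
        ∑ i ∈ I, c i * η (g i) = ∑ j ∈ J, B j * η j := by
  classical
  induction I using Finset.induction_on with
  | empty => exact ⟨∅, fun _ => 0, by simp, by simp, by simp⟩
  | insert a I ha ih =>
    obtain ⟨J, B, h1, h2, h3⟩ := ih (fun i hi => hc i (mem_insert_of_mem hi))
      (fun i hi => hg i (mem_insert_of_mem hi))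
    have hca := hc a (mem_insert_self a I)
    have hga := hg a (mem_insert_self a I)
    by_cases hex : ∃ j₀ ∈ J, ((g a / j₀ : Ωˣ) : Ω) ∈ N
    · obtain ⟨j₀, hj₀, hd⟩ := hex
      by_cases hz : B j₀ + c a * ((g a / j₀ : Ωˣ) : Ω) = 0
      · refine ⟨J.erase j₀, B, fun j hj => h1 j (mem_of_mem_erase hj), fun j hj j' hj' =>
          h2 j (mem_of_mem_erase hj) j' (mem_of_mem_erase hj'), fun η hη => ?_⟩
        rw [sum_insert ha, h3 η hη, ← add_sum_erase J _ hj₀,
          hη (g a) hga j₀ (h1 j₀ hj₀).1 hd]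
        linear_combination (η j₀) * hz
      · refine ⟨J, Function.update B j₀ (B j₀ + c a * ((g a / j₀ : Ωˣ) : Ω)), fun j hj => ?_,
          h2, fun η hη => ?_⟩
        · by_cases hjj : j = j₀
          · subst hjj
            rw [Function.update_self]
            exact ⟨(h1 j hj).1, N.add_mem (h1 j hj).2.1 (N.mul_mem hca hd), hz⟩
          · rw [Function.update_of_ne hjj]
            exact h1 j hj
        · rw [sum_insert ha, h3 η hη, ← add_sum_erase J _ hj₀,
            ← add_sum_erase J (fun j => Function.update B j₀ _ j * η j) hj₀,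
            hη (g a) hga j₀ (h1 j₀ hj₀).1 hd, Function.update_self]
          have h4 : ∑ x ∈ J.erase j₀, Function.update B j₀
              (B j₀ + c a * ((g a / j₀ : Ωˣ) : Ω)) x * η x = ∑ x ∈ J.erase j₀, B x * η x := by
            refine sum_congr rfl fun x hx => ?_
            rw [Function.update_of_ne (ne_of_mem_erase hx)]
          rw [h4]
          ring
    · have hex' : ∀ j ∈ J, ((g a / j : Ωˣ) : Ω) ∉ N := fun j hj h => hex ⟨j, hj, h⟩
      by_cases hz : c a = 0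
      · refine ⟨J, B, h1, h2, fun η hη => ?_⟩
        rw [sum_insert ha, h3 η hη, hz, zero_mul, zero_add]
      · have hnot : g a ∉ J := by
          intro h
          refine hex' _ h ?_
          rw [div_self']
          simp
        refine ⟨insert (g a) J, Function.update B (g a) (c a), fun j hj => ?_,
          fun j hj j' hj' hN => ?_, fun η hη => ?_⟩
        · rw [mem_insert] at hj
          rcases hj with hj | hj
          · subst hj
            rw [Function.update_self]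
            exact ⟨hga, hca, hz⟩
          · rw [Function.update_of_ne (by rintro rfl; exact hnot hj)]
            exact h1 j hj
        · rw [mem_insert] at hj hj'
          rcases hj with hj | hj <;> rcases hj' with hj' | hj'
          · rw [hj, hj']
          · rw [hj] at hN
            exact absurd hN (hex' j' hj')
          · rw [hj'] at hN
            refine absurd ?_ (hex' j hj)
            have h5 : ((g a / j : Ωˣ) : Ω) = (((j / g a : Ωˣ) : Ω))⁻¹ := by
              rw [← Units.val_inv_eq_inv_val, inv_div]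
            rw [h5]
            exact N.inv_mem hN
          · exact h2 j hj j' hj' hN
        · rw [sum_insert ha, h3 η hη, sum_insert hnot, Function.update_self]
          congr 1
          refine sum_congr rfl fun x hx => ?_
          rw [Function.update_of_ne (by rintro rfl; exact hnot hx)]

/-- the homomorphism to the integers -/
lemma kap (hGRP : T_GRP.{u}) {Ω : Type u} [Field Ω] (O : ValuationSubring Ω) (T H : Finset Ωˣ)
    (t0 : Ωˣ) (p : ℕ) (hp : p.Prime) (ht0 : t0 ∈ T) (hv : O.valuation (t0 : Ω) < 1)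
    (hH : ∀ h ∈ H, h ∈ Subgroup.closure (T : Set Ωˣ))
    (hpur : ∀ x ∈ Subgroup.closure (T : Set Ωˣ), ∀ (m : ℕ) (n : ℤ), 1 ≤ m →
      O.valuation (x : Ω) ^ m = O.valuation (t0 : Ω) ^ n → ∃ (m' : ℕ) (n' : ℤ), ¬ p ∣ m' ∧
        O.valuation (x : Ω) ^ m' = O.valuation (t0 : Ω) ^ n') :
    ∃ (M' : ℕ) (κ : Ωˣ → ℤ), ¬ p ∣ M' ∧
      (∀ x ∈ Subgroup.closure (T : Set Ωˣ), ∀ y ∈ Subgroup.closure (T : Set Ωˣ),
        κ (x * y) = κ x + κ y) ∧
      (∀ a ∈ H, ∀ b ∈ H, O.valuation (a : Ω) < O.valuation (b : Ω) → κ b < κ a) ∧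
      ∀ x ∈ Subgroup.closure (T : Set Ωˣ), ∀ (m : ℕ) (n : ℤ), 1 ≤ m →
        O.valuation (x : Ω) ^ m = O.valuation (t0 : Ω) ^ n → (m : ℤ) * κ x = M' * n := by
  classical
  set Γ := Additive (O.ValueGroup)ˣ with hΓ
  set w : Ωˣ →* (O.ValueGroup)ˣ := Units.map (O.valuation : Ω →* O.ValueGroup) with hw
  set W : Ωˣ → Γ := fun x => Additive.ofMul (w x)⁻¹ with hW
  have hwv : ∀ x : Ωˣ, ((w x : (O.ValueGroup)ˣ) : O.ValueGroup) = O.valuation (x : Ω) :=
    fun x => rfl
  have W1 : W 1 = 0 := by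
    simp only [hW, map_one, inv_one]
    rfl
  have Wmul : ∀ x y, W (x * y) = W x + W y := by
    intro x y
    simp only [hW, map_mul, mul_inv]
    rfl
  have Winv : ∀ x, W x⁻¹ = - W x := by
    intro x
    simp only [hW, map_inv]
    rfl
  have Weq : ∀ (x : Ωˣ) (m : ℕ) (n : ℤ), m • W x = n • W t0 ↔
      O.valuation (x : Ω) ^ m = O.valuation (t0 : Ω) ^ n := by
    intro x m n
    have h1 : m • W x = Additive.ofMul ((w x) ^ m)⁻¹ := by
      rw [← inv_pow]
      rfl
    have h2 : n • W t0 = Additive.ofMul ((w t0) ^ n)⁻¹ := by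
      rw [← inv_zpow]
      rfl
    rw [h1, h2, Additive.ofMul.injective.eq_iff, inv_inj, Units.ext_iff,
      Units.val_pow_eq_pow_val, Units.val_zpow_eq_zpow_val, hwv, hwv]
  have Wpos : ∀ x : Ωˣ, O.valuation (x : Ω) < 1 → 0 < W x := by
    intro x hx
    have h1 : w x < 1 := by
      rw [← Units.val_lt_val, hwv, Units.val_one]
      exact hx
    have h2 : (1 : (O.ValueGroup)ˣ) < (w x)⁻¹ := one_lt_inv'.2 h1
    exact h2
  set Δ := Subgroup.closure (T : Set Ωˣ) with hΔ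
  set Δ' : AddSubgroup Γ := AddSubgroup.closure ((T.image W : Finset Γ) : Set Γ) with hΔ'
  have hto : ∀ x ∈ Δ, W x ∈ Δ' := by
    intro x hx
    rw [hΔ] at hx
    induction hx using Subgroup.closure_induction with
    | mem x hx => exact AddSubgroup.subset_closure (by
        rw [coe_image]; exact ⟨x, hx, rfl⟩)
    | one => rw [W1]; exact Δ'.zero_mem
    | mul x y _ _ hx hy => rw [Wmul]; exact Δ'.add_mem hx hy
    | inv x _ hx => rw [Winv]; exact Δ'.neg_mem hx
  have hfrom : ∀ x' ∈ Δ', ∃ x ∈ Δ, W x = x' := by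
    intro x' hx'
    rw [hΔ'] at hx'
    induction hx' using AddSubgroup.closure_induction with
    | mem x' hx' =>
      rw [coe_image] at hx'
      obtain ⟨x, hx, rfl⟩ := hx'
      exact ⟨x, Subgroup.subset_closure hx, rfl⟩
    | zero => exact ⟨1, Δ.one_mem, W1⟩
    | add x y _ _ hx hy =>
      obtain ⟨a, ha, rfl⟩ := hx
      obtain ⟨b, hb, rfl⟩ := hy
      exact ⟨a * b, Δ.mul_mem ha hb, Wmul a b⟩
    | neg x _ hx =>
      obtain ⟨a, ha, rfl⟩ := hx
      exact ⟨a⁻¹, Δ.inv_mem ha, Winv a⟩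
  have hτ : t0 ∈ Δ := Subgroup.subset_closure ht0
  set P : Finset Γ := ((H ×ˢ H).filter fun q => O.valuation (q.1 : Ω) <
    O.valuation (q.2 : Ω)).image fun q => W (q.1 * q.2⁻¹) with hP
  obtain ⟨φ, hφ1, hφ2, hφ3⟩ := hGRP Γ Δ' (W t0) p P ⟨T.image W, rfl⟩ (hto t0 hτ)
    (Wpos t0 hv) hp (by
      intro x' hx' m n hm hmn
      obtain ⟨x, hx, rfl⟩ := hfrom x' hx'
      rw [Weq] at hmn
      obtain ⟨m', n', h1, h2⟩ := hpur x hx m n hm hmn
      exact ⟨m', n', h1, (Weq x m' n').2 h2⟩) (by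
      intro x' hx'
      rw [hP, mem_image] at hx'
      obtain ⟨q, hq, rfl⟩ := hx'
      rw [mem_filter, mem_product] at hq
      refine ⟨hto _ (Δ.mul_mem (hH _ hq.1.1) (Δ.inv_mem (hH _ hq.1.2))), Wpos _ ?_⟩
      have h5 : O.valuation (q.2 : Ω) ≠ 0 := by
        rw [← hwv]; exact Units.ne_zero _
      rw [Units.val_mul, Units.val_inv_eq_inv_val, map_mul, map_inv₀]
      exact (mul_inv_lt_iff₀ (zero_lt_iff.2 h5)).2 (by rw [one_mul]; exact hq.2))
  set D : Γ → ℕ := fun x => if h : x ∈ Δ' then (φ ⟨x, h⟩).den else 1 with hD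
  set M' : ℕ := ∏ x ∈ T.image W, D x with hM'
  have hpM : ¬ p ∣ M' := by
    rw [hM', Prime.dvd_finsetProd_iff hp.prime]
    rintro ⟨x, _, hx⟩
    by_cases h : x ∈ Δ'
    · simp only [hD, dif_pos h] at hx
      exact hφ2 _ hx
    · simp only [hD, dif_neg h] at hx
      exact hp.one_lt.ne' (Nat.dvd_one.1 hx)
  have hint : ∀ x (hx : x ∈ Δ'), ∃ n : ℤ, (n : ℚ) = M' * φ ⟨x, hx⟩ := by
    intro x hx
    have hx' := hx
    rw [hΔ'] at hx'
    have key : ∀ y (hy : y ∈ AddSubgroup.closure ((T.image W : Finset Γ) : Set Γ)),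
        ∃ n : ℤ, (n : ℚ) = M' * φ ⟨y, hy⟩ := by
      intro y hy
      induction hy using AddSubgroup.closure_induction with
      | mem x hx =>
        have hx1 : x ∈ Δ' := AddSubgroup.subset_closure hx
        have h1 : D x ∣ M' := dvd_prod_of_mem D hx
        have h2 : D x = (φ ⟨x, hx1⟩).den := by simp only [hD, dif_pos hx1]
        obtain ⟨c, hc⟩ := h1
        refine ⟨c * (φ ⟨x, hx1⟩).num, ?_⟩
        have h3 := Rat.mul_den_eq_num (φ ⟨x, hx1⟩)
        rw [hc, h2]
        push_cast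
        rw [← h3]
        ring
      | zero =>
        refine ⟨0, ?_⟩
        have : φ ⟨0, AddSubgroup.zero_mem _⟩ = 0 := map_zero φ
        rw [this]; simp
      | add x y hx hy ihx ihy =>
        obtain ⟨a, ha⟩ := ihx
        obtain ⟨b, hb⟩ := ihy
        refine ⟨a + b, ?_⟩
        have : φ ⟨x + y, AddSubgroup.add_mem _ hx hy⟩ = φ ⟨x, hx⟩ + φ ⟨y, hy⟩ :=
          map_add φ ⟨x, hx⟩ ⟨y, hy⟩
        rw [this]
        push_cast
        rw [ha, hb]
        ring
      | neg x hx ih =>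
        obtain ⟨a, ha⟩ := ih
        refine ⟨-a, ?_⟩
        have : φ ⟨-x, AddSubgroup.neg_mem _ hx⟩ = - φ ⟨x, hx⟩ := map_neg φ ⟨x, hx⟩
        rw [this]
        push_cast
        rw [ha]
        ring
    exact key x hx
  have hκ : ∀ x : Ωˣ, ∃ n : ℤ, ∀ h : W x ∈ Δ', (n : ℚ) = M' * φ ⟨W x, h⟩ := by
    intro x
    by_cases h : W x ∈ Δ'
    · obtain ⟨n, hn⟩ := hint _ h
      exact ⟨n, fun _ => hn⟩
    · exact ⟨0, fun h' => absurd h' h⟩
  choose κ hκ using hκ
  have hM0 : (0 : ℚ) < M' := by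
    have : M' ≠ 0 := by
      intro h
      exact hpM (h ▸ dvd_zero p)
    exact_mod_cast Nat.pos_of_ne_zero this
  refine ⟨M', κ, hpM, ?_, ?_, ?_⟩
  · intro x hx y hy
    have h1 := hκ x (hto x hx)
    have h2 := hκ y (hto y hy)
    have h3 := hκ (x * y) (hto _ (Δ.mul_mem hx hy))
    have h4 : φ ⟨W (x * y), hto _ (Δ.mul_mem hx hy)⟩ = φ ⟨W x, hto x hx⟩ + φ ⟨W y, hto y hy⟩ := by
      rw [← map_add]
      congr 1
      exact Subtype.ext (Wmul x y)
    rw [h4] at h3
    have h5 : ((κ (x * y) : ℤ) : ℚ) = ((κ x + κ y : ℤ) : ℚ) := by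
      push_cast
      rw [h1, h2, h3]
      ring
    exact_mod_cast h5
  · intro a ha b hb hab
    have hab' : W (a * b⁻¹) ∈ P := by
      rw [hP, mem_image]
      exact ⟨(a, b), by rw [mem_filter, mem_product]; exact ⟨⟨ha, hb⟩, hab⟩, rfl⟩
    have hmem : W (a * b⁻¹) ∈ Δ' := hto _ (Δ.mul_mem (hH _ ha) (Δ.inv_mem (hH _ hb)))
    have h1 := hφ1 ⟨W (a * b⁻¹), hmem⟩ hab'
    have h2 := hκ a (hto a (hH _ ha))
    have h3 := hκ b (hto b (hH _ hb))
    have h4 : φ ⟨W (a * b⁻¹), hmem⟩ = φ ⟨W a, hto a (hH _ ha)⟩ - φ ⟨W b, hto b (hH _ hb)⟩ := by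
      rw [← map_sub]
      congr 1
      refine Subtype.ext ?_
      show W (a * b⁻¹) = W a - W b
      rw [Wmul, Winv, sub_eq_add_neg]
    rw [h4] at h1
    have h5 : (0 : ℚ) < M' * (φ ⟨W a, hto a (hH _ ha)⟩ - φ ⟨W b, hto b (hH _ hb)⟩) :=
      mul_pos hM0 h1
    have h6 : ((κ b : ℤ) : ℚ) < ((κ a : ℤ) : ℚ) := by
      rw [h2, h3]
      linarith
    exact_mod_cast h6
  · intro x hx m n hm hmn
    have h1 := hφ3 ⟨W x, hto x hx⟩ m n hm ((Weq x m n).2 hmn)
    have h2 := hκ x (hto x hx)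
    have h3 : (((m : ℤ) * κ x : ℤ) : ℚ) = ((M' * n : ℤ) : ℚ) := by
      push_cast
      rw [h2, ← h1]
      ring
    exact_mod_cast h3

end Pool.Agent.H36.IX
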