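import Pool.Agent.H39.IX.Targets2

/-!
# WLB: weak limits along an ultrafilter
-/

set_option autoImplicit false

namespace Pool.Agent.H36.IX
open scoped InnerProductSpace Topology
open Filter Finset Pool.Agent.H80.G2 Pool.Agent.H39.IX

theorem pf_WLB : T_WLB := by
  intro H _ _ _ U x C hC
  have hC0 : 0 ≤ C := (norm_nonneg (x 0)).trans (hC 0)
  have hb : ∀ (ζ η : H) (i : ℕ), ‖(inner ℂ (x i ζ) η : ℂ)‖ ≤ C * ‖ζ‖ * ‖η‖ := by
    intro ζ η i
    refine (norm_inner_le_norm _ _).trans ?_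
    refine mul_le_mul_of_nonneg_right ?_ (norm_nonneg _)
    exact ((x i).le_opNorm ζ).trans (mul_le_mul_of_nonneg_right (hC i) (norm_nonneg _))
  have hlim : ∀ ζ η : H, ∃ c : ℂ, ‖c‖ ≤ C * ‖ζ‖ * ‖η‖ ∧
      Tendsto (fun i => (inner ℂ (x i ζ) η : ℂ)) (U : Filter ℕ) (𝓝 c) := by
    intro ζ η
    have h1 : IsCompact (Metric.closedBall (0 : ℂ) (C * ‖ζ‖ * ‖η‖)) := isCompact_closedBall _ _
    obtain ⟨c, hc, hcU⟩ := h1.ultrafilter_le_nhds
      (U.map (fun i => (inner ℂ (x i ζ) η : ℂ))) (by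
        rw [Filter.le_principal_iff, Ultrafilter.coe_map, Filter.mem_map]
        refine Filter.mem_of_superset (Filter.univ_mem) ?_
        intro i _
        show (inner ℂ (x i ζ) η : ℂ) ∈ Metric.closedBall (0 : ℂ) (C * ‖ζ‖ * ‖η‖)
        rw [mem_closedBall_zero_iff]
        exact hb ζ η i)
    exact ⟨c, by simpa using hc, hcU⟩
  choose B hB1 hB2 using hlim
  have hadd1 : ∀ ζ ζ' η, B (ζ + ζ') η = B ζ η + B ζ' η := by
    intro ζ ζ' η
    refine tendsto_nhds_unique (hB2 (ζ + ζ') η) ?_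
    have h := (hB2 ζ η).add (hB2 ζ' η)
    refine h.congr fun i => ?_
    rw [map_add, inner_add_left]
  have hadd2 : ∀ ζ η η', B ζ (η + η') = B ζ η + B ζ η' := by
    intro ζ η η'
    refine tendsto_nhds_unique (hB2 ζ (η + η')) ?_
    have h := (hB2 ζ η).add (hB2 ζ η')
    refine h.congr fun i => ?_
    rw [inner_add_right]
  have hsm1 : ∀ (c : ℂ) ζ η, B (c • ζ) η = (starRingEnd ℂ) c * B ζ η := by
    intro c ζ η
    refine tendsto_nhds_unique (hB2 (c • ζ) η) ?_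
    have h := (hB2 ζ η).const_mul ((starRingEnd ℂ) c)
    refine h.congr fun i => ?_
    rw [map_smul, inner_smul_left]
  have hsm2 : ∀ (c : ℂ) ζ η, B ζ (c • η) = c * B ζ η := by
    intro c ζ η
    refine tendsto_nhds_unique (hB2 ζ (c • η)) ?_
    have h := (hB2 ζ η).const_mul c
    refine h.congr fun i => ?_
    rw [inner_smul_right]
  let S : H →ₗ⋆[ℂ] H →ₗ[ℂ] ℂ := LinearMap.mk₂'ₛₗ (starRingEnd ℂ) (RingHom.id ℂ) B hadd1
    (fun c ζ η => by rw [hsm1]; rfl) hadd2 (fun c ζ η => by rw [hsm2]; rfl)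
  let T : H →L⋆[ℂ] H →L[ℂ] ℂ := S.mkContinuous₂ C (fun ζ η => hB1 ζ η)
  let z : H →L[ℂ] H := InnerProductSpace.continuousLinearMapOfBilin T
  have hz : ∀ ζ η : H, (inner ℂ (z ζ) η : ℂ) = B ζ η := fun ζ η =>
    InnerProductSpace.continuousLinearMapOfBilin_apply T ζ η
  have hlimz : ∀ η ζ : H,
      Tendsto (fun i => (inner ℂ η (x i ζ) : ℂ)) (U : Filter ℕ) (𝓝 (inner ℂ η (z ζ))) := by
    intro η ζ
    have h1 := (Complex.continuous_conj.tendsto (B ζ η)).comp (hB2 ζ η)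
    rw [← hz ζ η] at h1
    have e1 : (starRingEnd ℂ) (inner ℂ (z ζ) η) = inner ℂ η (z ζ) := inner_conj_symm _ _
    rw [e1] at h1
    refine h1.congr fun i => ?_
    exact inner_conj_symm _ _
  refine ⟨z, ?_, hlimz, ?_, ?_⟩
  · refine ContinuousLinearMap.opNorm_le_bound _ hC0 fun ζ => ?_
    have h1 : (inner ℂ (z ζ) (z ζ) : ℂ) = B ζ (z ζ) := hz ζ (z ζ)
    have h2 := hB1 ζ (z ζ)
    rw [← h1, inner_self_eq_norm_sq_to_K] at h2
    have h3 : ‖z ζ‖ ^ 2 ≤ C * ‖ζ‖ * ‖z ζ‖ := by simpa using h2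
    rcases (norm_nonneg (z ζ)).eq_or_lt with h4 | h4
    · rw [← h4]
      positivity
    · have h5 : ‖z ζ‖ * ‖z ζ‖ ≤ C * ‖ζ‖ * ‖z ζ‖ := by rw [← pow_two]; exact h3
      exact le_of_mul_le_mul_right h5 h4
  · intro N hx
    refine mem_of_comm fun t ht => ?_
    ext ζ
    refine ext_inner_left ℂ fun η => ?_
    have e1 : (inner ℂ η ((t * z) ζ) : ℂ) = inner ℂ (star t η) (z ζ) := by
      rw [ContinuousLinearMap.star_eq_adjoint, ContinuousLinearMap.adjoint_inner_left]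
      rfl
    have e2 : (inner ℂ η ((z * t) ζ) : ℂ) = inner ℂ (star t η) (z ζ) := by
      refine tendsto_nhds_unique (f := fun i => (inner ℂ η (x i (t ζ)) : ℂ)) (hlimz η (t ζ)) ?_
      refine (hlimz (star t η) ζ).congr fun i => ?_
      rw [ContinuousLinearMap.star_eq_adjoint, ContinuousLinearMap.adjoint_inner_left]
      have h2 := congrArg (fun T : H →L[ℂ] H => T ζ) (ht (x i) (hx i))
      exact congrArg (fun v => (inner ℂ η v : ℂ)) h2.symm
    rw [e1, e2]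
  · intro ξ hξ
    refine tendsto_tsum_of_dominated_convergence (bound := fun n => C * ‖ξ n‖ ^ 2)
      (hξ.mul_left C) (fun n => hlimz (ξ n) (ξ n)) (Eventually.of_forall fun i n => ?_)
    refine (norm_inner_le_norm _ _).trans ?_
    have h1 : ‖x i (ξ n)‖ ≤ C * ‖ξ n‖ :=
      ((x i).le_opNorm _).trans (mul_le_mul_of_nonneg_right (hC i) (norm_nonneg _))
    calc ‖ξ n‖ * ‖x i (ξ n)‖ ≤ ‖ξ n‖ * (C * ‖ξ n‖) :=
          mul_le_mul_of_nonneg_left h1 (norm_nonneg _)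
      _ = C * ‖ξ n‖ ^ 2 := by ring

end Pool.Agent.H36.IX
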